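import Pool.Agent.X120.Rec.CoreB
import Pool.Agent.Y916.Af.Ind

/-!
# Relations between a point, its exponentials and constants
-/

set_option autoImplicit false

open Module

namespace Pool.Agent.X120.Schan

open Pool.Agent.Y916.Om

/-- The numbers `x_p` are free over their exponentials and the constants `w_1, ..., w_q`, in degree `δ` and over
number fields of degree at most `d`: every polynomial relation of degree `≤ δ` over such a number field, between the `w_j`,
the `x_p` and the `exp(x_p)`, is an identity in the `x_p`. -/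
def Free (δ d : ℕ) {q : ℕ} {κ : Type} (w : Fin q → ℂ) (x : κ → ℂ) : Prop :=
  ∀ L : IntermediateField ℚ ℂ, FiniteDimensional ℚ L → finrank ℚ L ≤ d →
  ∀ P : MvPolynomial (Fin q ⊕ (κ ⊕ κ)) L, P.totalDegree ≤ δ →
  MvPolynomial.aeval (Sum.elim w (Sum.elim x fun i => Complex.exp (x i))) P = 0 →
  ∀ y : κ → ℂ, MvPolynomial.aeval (Sum.elim w (Sum.elim y fun i => Complex.exp (x i))) P = 0

/-- the constants `w, z, exp z` -/
noncomputable def cst {q : ℕ} {κ : Type} (w : Fin q → ℂ) (z : κ → ℂ) : Fin q ⊕ (κ ⊕ κ) → ℂ :=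
  Sum.elim w (Sum.elim z fun i => Complex.exp (z i))

theorem lift {q δ : ℕ} {κ : Type} (L K : IntermediateField ℚ ℂ) (hLK : L ≤ K) (w : Fin q → ℂ) (z α : κ → ℂ)
    (hα : ∀ i, α i ∈ K) (P : MvPolynomial (Fin q ⊕ (κ ⊕ κ)) L) (hP : P.totalDegree ≤ δ) :
    ∃ Q : MvPolynomial ((Fin q ⊕ (κ ⊕ κ)) ⊕ κ) K, Q.totalDegree ≤ δ ∧
      ∀ y : κ → ℂ, MvPolynomial.aeval (Sum.elim (cst w z) y) Q =
        MvPolynomial.aeval (Sum.elim w (Sum.elim (fun i => z i + y i) fun i => α i * Complex.exp (z i))) P := by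
  classical
  let ι : L →+* K := (IntermediateField.inclusion hLK).toRingHom
  let f : Fin q ⊕ (κ ⊕ κ) → MvPolynomial ((Fin q ⊕ (κ ⊕ κ)) ⊕ κ) K :=
    Sum.elim (fun j => MvPolynomial.X (Sum.inl (Sum.inl j)))
      (Sum.elim (fun i => MvPolynomial.X (Sum.inl (Sum.inr (Sum.inl i))) + MvPolynomial.X (Sum.inr i))
        fun i => MvPolynomial.C (⟨α i, hα i⟩ : K) * MvPolynomial.X (Sum.inl (Sum.inr (Sum.inr i))))
  have hf : ∀ a, (f a).totalDegree ≤ 1 := by
    rintro (j | i | i)
    · exact (MvPolynomial.totalDegree_X _).le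
    · exact (MvPolynomial.totalDegree_add _ _).trans
        (max_le (MvPolynomial.totalDegree_X _).le (MvPolynomial.totalDegree_X _).le)
    · refine (MvPolynomial.totalDegree_mul _ _).trans ?_
      rw [MvPolynomial.totalDegree_C, zero_add]
      exact (MvPolynomial.totalDegree_X _).le
  refine ⟨MvPolynomial.eval₂ ((MvPolynomial.C).comp ι) f P, ?_, fun y => ?_⟩
  · rw [MvPolynomial.eval₂_eq]
    refine MvPolynomial.totalDegree_finsetSum_le fun t ht => ?_
    rw [RingHom.comp_apply]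
    refine (MvPolynomial.totalDegree_mul _ _).trans ?_
    rw [MvPolynomial.totalDegree_C, zero_add]
    refine (MvPolynomial.totalDegree_finset_prod _ _).trans ?_
    have h1 : (t.sum fun _ e => e) ≤ δ := (MvPolynomial.le_totalDegree ht).trans hP
    refine le_trans (Finset.sum_le_sum fun i _ => ?_) h1
    refine (MvPolynomial.totalDegree_pow _ _).trans ?_
    exact (Nat.mul_le_mul_left _ (hf i)).trans (by rw [mul_one])
  · have h1 : ((MvPolynomial.aeval (Sum.elim (cst w z) y) :
        MvPolynomial ((Fin q ⊕ (κ ⊕ κ)) ⊕ κ) K →ₐ[K] ℂ).toRingHom).comp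
        (MvPolynomial.eval₂Hom ((MvPolynomial.C).comp ι) f) =
        (MvPolynomial.aeval (Sum.elim w (Sum.elim (fun i => z i + y i) fun i => α i * Complex.exp (z i))) :
          MvPolynomial (Fin q ⊕ (κ ⊕ κ)) L →ₐ[L] ℂ).toRingHom := by
      refine MvPolynomial.ringHom_ext (fun a => ?_) ?_
      · simp only [RingHom.comp_apply, MvPolynomial.coe_eval₂Hom, MvPolynomial.eval₂_C, AlgHom.toRingHom_eq_coe,
          RingHom.coe_coe, MvPolynomial.aeval_C]
        rfl
      · rintro (j | i | i)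
        · simp [f, cst]
        · simp [f, cst]
        · simp [f, cst]
    exact DFunLike.congr_fun h1 P

/-- a polynomial relation with constants -/
theorem badW_of_poly {υ κ : Type} [Fintype υ] [Fintype κ] {d δ : ℕ} (K : IntermediateField ℚ ℂ)
    (hK : FiniteDimensional ℚ K) (hKd : finrank ℚ K ≤ d) (w : υ → ℂ) (x : κ → ℂ) (Q : MvPolynomial (υ ⊕ κ) K)
    (hQ : Q.totalDegree ≤ δ) (h0 : MvPolynomial.aeval (Sum.elim w x) Q = 0) (y : κ → ℂ)
    (hy : MvPolynomial.aeval (Sum.elim w y) Q ≠ 0) : BadW d δ δ w x := by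
  classical
  refine ⟨K, hK, hKd, MvPolynomial.aeval (Sum.elim (fun i => (MvPolynomial.C (w i) : MvPolynomial κ ℂ))
    MvPolynomial.X) Q, ?_, Pool.Agent.Y916.Af.deg_sub K w Q hQ, fun s => ?_, ?_⟩
  · intro h
    apply hy
    rw [← Pool.Agent.Y916.Af.eval_sub K w Q y, h, map_zero]
  · set W : Submodule ℚ ℂ := Submodule.span ℚ (insert 1 (Set.range w)) with hW
    have h1 : (1 : ℂ) ∈ W := Submodule.subset_span (Set.mem_insert _ _)
    have hw : ∀ i, w i ∈ W := fun i => Submodule.subset_span (Set.mem_insert_of_mem _ ⟨i, rfl⟩)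
    have h2 := Pool.Agent.Y916.Af.coeff_sub K w W h1 hw Q hQ s
    set V : Submodule K ℂ := Submodule.span K (insert 1 (Set.range w)) with hV
    have h3 : W ≤ V.restrictScalars ℚ := Submodule.span_le.2 fun z hz => Submodule.subset_span hz
    have h4 : Submodule.span K ((W ^ δ : Submodule ℚ ℂ) : Set ℂ) ≤ V ^ δ :=
      Submodule.span_le.2 fun z hz => res_pow V δ (pow_le_pow_left' h3 δ hz)
    exact h4 h2
  · rw [Pool.Agent.Y916.Af.eval_sub]
    exact h0

/-- **failure of freeness** -/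
theorem badW_of_not_free {q δ d m : ℕ} {κ : Type} [Fintype κ] (K : IntermediateField ℚ ℂ)
    (hK : FiniteDimensional ℚ K) (hKm : finrank ℚ K ≤ m) (w : Fin q → ℂ) (z x : κ → ℂ)
    (hx : ∀ p, Complex.exp (x p - z p) ∈ K) (h : ¬ Free δ d w x) :
    BadW (d * m) δ δ (cst w z) fun p => x p - z p := by
  classical
  simp only [Free, not_forall] at h
  obtain ⟨L, hL1, hL2, P, hP1, hP2, y, hy⟩ := h
  have hfd : FiniteDimensional ℚ ↥(L ⊔ K) := IntermediateField.finiteDimensional_sup L K
  have hdeg : finrank ℚ ↥(L ⊔ K) ≤ d * m :=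
    (IntermediateField.finrank_sup_le L K).trans (Nat.mul_le_mul hL2 hKm)
  obtain ⟨Q, hQ1, hQ2⟩ := lift L (L ⊔ K) le_sup_left w z (fun p => Complex.exp (x p - z p))
    (fun p => (le_sup_right : K ≤ L ⊔ K) (hx p)) P hP1
  have he : ∀ p, Complex.exp (x p - z p) * Complex.exp (z p) = Complex.exp (x p) := by
    intro p
    rw [← Complex.exp_add]
    congr 1
    ring
  refine badW_of_poly (L ⊔ K) hfd hdeg (cst w z) _ Q hQ1 ?_ (fun p => y p - z p) ?_
  · rw [hQ2, ← hP2]
    congr 2
    funext a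
    rcases a with a | a | a
    · rfl
    · simp
    · simp [he a]
  · rw [hQ2]
    intro h0
    refine hy (h0 ▸ ?_)
    congr 2
    funext a
    rcases a with a | a | a
    · rfl
    · simp
    · simp [he a]

end Pool.Agent.X120.Schan
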